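import Pool.Agent.W51.FCC.Defs

/-!
Odd multiples of the Petersen weight have no faithful circuit cover.
-/

set_option autoImplicit false
set_option linter.unusedSectionVars false
set_option linter.unusedSimpArgs false
set_option linter.unreachableTactic false
set_option linter.unusedTactic false
set_option linter.unnecessarySeqFocus false

open Pool.Agent.H126R2.CDC (MGraph)
open Pool.Agent.W51.FCC Finset

namespace Run7.h329.FCC

/-- The Petersen weight: 2 on the spokes, 1 on the two pentagons. -/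
def pw : Fin 15 → ℕ := ![1, 1, 1, 1, 1, 2, 2, 2, 2, 2, 1, 1, 1, 1, 1]

section

variable {V E : Type} [Fintype V] [DecidableEq V] [Fintype E] [DecidableEq E]
  {G : MGraph V E} (S : PetersenSubdivision G)

/-- `e` is the `i`-th edge of the path `j` for some `i`. -/
def OnPath (j : Fin 15) (e : E) : Prop := ∃ i, i ≤ S.len j ∧ e = S.ed j i

/-- `k` times the Petersen weight. -/
noncomputable def wt (k : ℕ) (e : E) : ℕ := by
  classical exact ∑ j : Fin 15, if OnPath S j e then k * pw j else 0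

theorem onPath_iff {j j' : Fin 15} {i : ℕ} (hi : i ≤ S.len j) :
    OnPath S j' (S.ed j i) ↔ j' = j := by
  constructor
  · rintro ⟨i', hi', he⟩
    exact (S.ed_inj j i j' i' hi hi' he).1.symm
  · rintro rfl
    exact ⟨i, hi, rfl⟩

theorem wt_ed (k : ℕ) {j : Fin 15} {i : ℕ} (hi : i ≤ S.len j) :
    wt S k (S.ed j i) = k * pw j := by
  classical
  unfold wt
  rw [Finset.sum_eq_single j]
  · rw [if_pos ((onPath_iff S hi).2 rfl)]
  · intro j' _ hj'
    rw [if_neg]
    rw [onPath_iff S hi]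
    exact hj'
  · intro h
    exact absurd (Finset.mem_univ j) h

theorem wt_pos {k : ℕ} {e : E} (h : wt S k e ≠ 0) : ∃ j i, i ≤ S.len j ∧ e = S.ed j i := by
  classical
  unfold wt at h
  obtain ⟨j, _, hj⟩ := Finset.exists_ne_zero_of_sum_ne_zero h
  by_cases hp : OnPath S j e
  · obtain ⟨i, hi, he⟩ := hp
    exact ⟨j, i, hi, he⟩
  · rw [if_neg hp] at hj
    exact absurd rfl hj

theorem sum_sub (f : E → ℕ) (hf : ∀ e, f e ≠ 0 → ∃ j i, i ≤ S.len j ∧ e = S.ed j i) :
    ∑ e, f e = ∑ j : Fin 15, ∑ i ∈ range (S.len j + 1), f (S.ed j i) := by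
  classical
  rw [Finset.sum_sigma' (univ : Finset (Fin 15)) (fun j => range (S.len j + 1))
    (fun j i => f (S.ed j i))]
  have hinj : Set.InjOn (fun x : (Σ _ : Fin 15, ℕ) => S.ed x.1 x.2)
      ((univ : Finset (Fin 15)).sigma (fun j => range (S.len j + 1)) : Set (Σ _ : Fin 15, ℕ)) := by
    rintro ⟨j, i⟩ h ⟨j', i'⟩ h' he
    have h1 : i ≤ S.len j := by
      have := (Finset.mem_sigma.1 h).2
      simp only [Finset.mem_range] at this
      omega
    have h2 : i' ≤ S.len j' := by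
      have := (Finset.mem_sigma.1 h').2
      simp only [Finset.mem_range] at this
      omega
    obtain ⟨rfl, rfl⟩ := S.ed_inj j i j' i' h1 h2 he
    rfl
  rw [← Finset.sum_image (f := f) hinj]
  symm
  apply Finset.sum_subset (Finset.subset_univ _)
  intro e _ he
  by_contra h0
  obtain ⟨j, i, hi, rfl⟩ := hf e h0
  apply he
  rw [Finset.mem_image]
  refine ⟨⟨j, i⟩, ?_, rfl⟩
  rw [Finset.mem_sigma]
  exact ⟨Finset.mem_univ _, Finset.mem_range.2 (Nat.lt_succ_of_le hi)⟩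

/-! ### cuts -/

/-- number of edges of the path `j` in the cut of `X` -/
def N (X : Finset V) (j : Fin 15) : ℕ :=
  ∑ i ∈ range (S.len j + 1), if S.ed j i ∈ cut G X then 1 else 0

theorem mem_cut_ed {X : Finset V} {j : Fin 15} {i : ℕ} (hi : i ≤ S.len j) :
    S.ed j i ∈ cut G X ↔ ¬ (S.vx j i ∈ X ↔ S.vx j (i + 1) ∈ X) := by
  unfold cut
  rw [Finset.mem_filter]
  simp only [Finset.mem_univ, true_and, S.ends j i hi, Sym2.mem_iff]
  constructor
  · rintro ⟨⟨v, hv, hvX⟩, ⟨u, hu, huX⟩⟩ h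
    rcases hv with rfl | rfl <;> rcases hu with rfl | rfl <;> tauto
  · intro h
    by_cases h1 : S.vx j i ∈ X
    · have h2 : S.vx j (i + 1) ∉ X := by tauto
      exact ⟨⟨_, Or.inl rfl, h1⟩, ⟨_, Or.inr rfl, h2⟩⟩
    · have h2 : S.vx j (i + 1) ∈ X := by tauto
      exact ⟨⟨_, Or.inr rfl, h2⟩, ⟨_, Or.inl rfl, h1⟩⟩

/-- indicator of a branch vertex -/
def bX (X : Finset V) (a : Fin 10) : ℕ := if S.br a ∈ X then 1 else 0

theorem N_parity_aux (X : Finset V) (j : Fin 15) (n : ℕ) (hn : n ≤ S.len j + 1) :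
    (∑ i ∈ range n, if S.ed j i ∈ cut G X then 1 else 0) % 2 =
      ((if S.vx j 0 ∈ X then 1 else 0) + (if S.vx j n ∈ X then 1 else 0)) % 2 := by
  induction n with
  | zero => split_ifs <;> simp
  | succ n ih =>
    rw [Finset.sum_range_succ]
    have ih' := ih (by omega)
    have hc := mem_cut_ed (X := X) S (show n ≤ S.len j by omega)
    by_cases h1 : S.vx j n ∈ X <;> by_cases h2 : S.vx j (n + 1) ∈ X <;>
      by_cases h3 : S.ed j n ∈ cut G X <;> by_cases h0 : S.vx j 0 ∈ X <;>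
      simp only [h0, h1, h2, h3, if_true, if_false, true_iff, false_iff, iff_true, iff_false,
        not_true, not_false_iff, not_not] at hc ih' ⊢ <;>
      first
        | exact absurd trivial hc
        | exact absurd hc (by tauto)
        | omega

theorem N_parity (X : Finset V) (j : Fin 15) :
    N S X j % 2 = (bX S X (pa j) + bX S X (pb j)) % 2 := by
  have h := N_parity_aux S X j (S.len j + 1) le_rfl
  rw [S.start, S.stop] at h
  exact h

theorem sum_cut (k : ℕ) (X : Finset V) :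
    ∑ e ∈ cut G X, wt S k e = k * ∑ j, pw j * N S X j := by
  classical
  rw [← Finset.univ_inter (cut G X), ← Finset.sum_ite_mem,
    sum_sub S (fun e => if e ∈ cut G X then wt S k e else 0)]
  · rw [Finset.mul_sum]
    apply Finset.sum_congr rfl
    intro j _
    unfold N
    rw [Finset.mul_sum, Finset.mul_sum]
    apply Finset.sum_congr rfl
    intro i hi
    have hi' : i ≤ S.len j := by
      rw [Finset.mem_range] at hi
      omega
    rw [wt_ed S k hi']
    split_ifs <;> simp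
  · intro e he
    by_cases h : e ∈ cut G X
    · simp only [if_pos h] at he
      exact wt_pos S he
    · simp only [if_neg h] at he
      exact absurd rfl he

theorem N_pos {X : Finset V} {j : Fin 15} {i : ℕ} (hi : i ≤ S.len j)
    (h : S.ed j i ∈ cut G X) : 1 ≤ N S X j := by
  unfold N
  calc 1 = (if S.ed j i ∈ cut G X then 1 else 0) := by rw [if_pos h]
    _ ≤ _ := Finset.single_le_sum (f := fun i => if S.ed j i ∈ cut G X then 1 else 0)
        (fun _ _ => Nat.zero_le _) (Finset.mem_range.2 (by omega))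

theorem pl {x y a b c : ℕ} (h : x % 2 = (a + b) % 2) (h' : y % 2 = (b + c) % 2) :
    (x + y) % 2 = (a + c) % 2 := by omega

theorem sw {x a b : ℕ} (h : x % 2 = (a + b) % 2) : x % 2 = (b + a) % 2 := by omega

theorem cl {x a : ℕ} (h : x % 2 = (a + a) % 2) : x % 2 = 0 := by omega

theorem ev2 {x : ℕ} (h : x % 2 = 0) (h' : 1 ≤ x) : 2 ≤ x := by omega

/-- the finite fact about parities -/
theorem fin_cut (n : Fin 15 → ℕ) (b : Fin 10 → ℕ)
    (h : ∀ j, n j % 2 = (b (pa j) + b (pb j)) % 2) :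
    (∑ j, pw j * n j) % 2 = 0 ∧ ∀ j0, 1 ≤ n j0 → 2 * pw j0 ≤ ∑ j, pw j * n j := by
  have e : ∑ j, pw j * n j = n 0 + n 1 + n 2 + n 3 + n 4 + 2 * n 5 + 2 * n 6 + 2 * n 7 + 2 * n 8
      + 2 * n 9 + n 10 + n 11 + n 12 + n 13 + n 14 := by
    simp only [Fin.sum_univ_succ, Fin.sum_univ_zero]
    simp [pw]
    ring
  have h0 : n 0 % 2 = (b 0 + b 1) % 2 := h 0
  have h1 : n 1 % 2 = (b 1 + b 2) % 2 := h 1
  have h2 : n 2 % 2 = (b 2 + b 3) % 2 := h 2
  have h3 : n 3 % 2 = (b 3 + b 4) % 2 := h 3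
  have h4 : n 4 % 2 = (b 4 + b 0) % 2 := h 4
  have h5 : n 5 % 2 = (b 0 + b 5) % 2 := h 5
  have h6 : n 6 % 2 = (b 1 + b 6) % 2 := h 6
  have h7 : n 7 % 2 = (b 2 + b 7) % 2 := h 7
  have h8 : n 8 % 2 = (b 3 + b 8) % 2 := h 8
  have h9 : n 9 % 2 = (b 4 + b 9) % 2 := h 9
  have h10 : n 10 % 2 = (b 5 + b 7) % 2 := h 10
  have h11 : n 11 % 2 = (b 6 + b 8) % 2 := h 11
  have h12 : n 12 % 2 = (b 7 + b 9) % 2 := h 12
  have h13 : n 13 % 2 = (b 8 + b 5) % 2 := h 13
  have h14 : n 14 % 2 = (b 9 + b 6) % 2 := h 14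
  clear h
  -- the five 8-cycles and the two pentagons
  have c0 := cl (pl (pl (pl (pl (pl (pl (pl h1 h7) h12) (sw h9)) (sw h3)) h8) (sw h11)) (sw h6))
  have c1 := cl (pl (pl (pl (pl (pl (pl (pl h2 h8) h13) (sw h5)) (sw h4)) h9) (sw h12)) (sw h7))
  have c2 := cl (pl (pl (pl (pl (pl (pl (pl h3 h9) h14) (sw h6)) (sw h0)) h5) (sw h13)) (sw h8))
  have c3 := cl (pl (pl (pl (pl (pl (pl (pl h4 h5) h10) (sw h7)) (sw h1)) h6) (sw h14)) (sw h9))
  have c4 := cl (pl (pl (pl (pl (pl (pl (pl h0 h6) h11) (sw h8)) (sw h2)) h7) (sw h10)) (sw h5))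
  have p1 := cl (pl (pl (pl (pl h0 h1) h2) h3) h4)
  have p2 := cl (pl (pl (pl (pl h10 h12) h14) h11) h13)
  clear h0 h1 h2 h3 h4 h5 h6 h7 h8 h9 h10 h11 h12 h13 h14
  rw [e]
  clear e
  refine ⟨by clear c0 c1 c2 c3 c4; omega, ?_⟩
  clear p1 p2
  intro j0
  fin_cases j0 <;> intro hj
  · have hm : 1 ≤ n 0 := hj
    change 2 * 1 ≤ _
    have a2 : 2 ≤ n 3 + n 9 + n 14 + n 6 + n 0 + n 5 + n 13 + n 8 := ev2 c2 (by omega)
    have a4 : 2 ≤ n 0 + n 6 + n 11 + n 8 + n 2 + n 7 + n 10 + n 5 := ev2 c4 (by omega)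
    clear c0 c1 c2 c3 c4
    omega
  · have hm : 1 ≤ n 1 := hj
    change 2 * 1 ≤ _
    have a0 : 2 ≤ n 1 + n 7 + n 12 + n 9 + n 3 + n 8 + n 11 + n 6 := ev2 c0 (by omega)
    have a3 : 2 ≤ n 4 + n 5 + n 10 + n 7 + n 1 + n 6 + n 14 + n 9 := ev2 c3 (by omega)
    clear c0 c1 c2 c3 c4
    omega
  · have hm : 1 ≤ n 2 := hj
    change 2 * 1 ≤ _
    have a1 : 2 ≤ n 2 + n 8 + n 13 + n 5 + n 4 + n 9 + n 12 + n 7 := ev2 c1 (by omega)
    have a4 : 2 ≤ n 0 + n 6 + n 11 + n 8 + n 2 + n 7 + n 10 + n 5 := ev2 c4 (by omega)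
    clear c0 c1 c2 c3 c4
    omega
  · have hm : 1 ≤ n 3 := hj
    change 2 * 1 ≤ _
    have a0 : 2 ≤ n 1 + n 7 + n 12 + n 9 + n 3 + n 8 + n 11 + n 6 := ev2 c0 (by omega)
    have a2 : 2 ≤ n 3 + n 9 + n 14 + n 6 + n 0 + n 5 + n 13 + n 8 := ev2 c2 (by omega)
    clear c0 c1 c2 c3 c4
    omega
  · have hm : 1 ≤ n 4 := hj
    change 2 * 1 ≤ _
    have a1 : 2 ≤ n 2 + n 8 + n 13 + n 5 + n 4 + n 9 + n 12 + n 7 := ev2 c1 (by omega)
    have a3 : 2 ≤ n 4 + n 5 + n 10 + n 7 + n 1 + n 6 + n 14 + n 9 := ev2 c3 (by omega)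
    clear c0 c1 c2 c3 c4
    omega
  · have hm : 1 ≤ n 5 := hj
    change 2 * 2 ≤ _
    have a1 : 2 ≤ n 2 + n 8 + n 13 + n 5 + n 4 + n 9 + n 12 + n 7 := ev2 c1 (by omega)
    have a2 : 2 ≤ n 3 + n 9 + n 14 + n 6 + n 0 + n 5 + n 13 + n 8 := ev2 c2 (by omega)
    have a3 : 2 ≤ n 4 + n 5 + n 10 + n 7 + n 1 + n 6 + n 14 + n 9 := ev2 c3 (by omega)
    have a4 : 2 ≤ n 0 + n 6 + n 11 + n 8 + n 2 + n 7 + n 10 + n 5 := ev2 c4 (by omega)
    clear c0 c1 c2 c3 c4
    omega
  · have hm : 1 ≤ n 6 := hj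
    change 2 * 2 ≤ _
    have a0 : 2 ≤ n 1 + n 7 + n 12 + n 9 + n 3 + n 8 + n 11 + n 6 := ev2 c0 (by omega)
    have a2 : 2 ≤ n 3 + n 9 + n 14 + n 6 + n 0 + n 5 + n 13 + n 8 := ev2 c2 (by omega)
    have a3 : 2 ≤ n 4 + n 5 + n 10 + n 7 + n 1 + n 6 + n 14 + n 9 := ev2 c3 (by omega)
    have a4 : 2 ≤ n 0 + n 6 + n 11 + n 8 + n 2 + n 7 + n 10 + n 5 := ev2 c4 (by omega)
    clear c0 c1 c2 c3 c4
    omega
  · have hm : 1 ≤ n 7 := hj
    change 2 * 2 ≤ _
    have a0 : 2 ≤ n 1 + n 7 + n 12 + n 9 + n 3 + n 8 + n 11 + n 6 := ev2 c0 (by omega)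
    have a1 : 2 ≤ n 2 + n 8 + n 13 + n 5 + n 4 + n 9 + n 12 + n 7 := ev2 c1 (by omega)
    have a3 : 2 ≤ n 4 + n 5 + n 10 + n 7 + n 1 + n 6 + n 14 + n 9 := ev2 c3 (by omega)
    have a4 : 2 ≤ n 0 + n 6 + n 11 + n 8 + n 2 + n 7 + n 10 + n 5 := ev2 c4 (by omega)
    clear c0 c1 c2 c3 c4
    omega
  · have hm : 1 ≤ n 8 := hj
    change 2 * 2 ≤ _
    have a0 : 2 ≤ n 1 + n 7 + n 12 + n 9 + n 3 + n 8 + n 11 + n 6 := ev2 c0 (by omega)
    have a1 : 2 ≤ n 2 + n 8 + n 13 + n 5 + n 4 + n 9 + n 12 + n 7 := ev2 c1 (by omega)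
    have a2 : 2 ≤ n 3 + n 9 + n 14 + n 6 + n 0 + n 5 + n 13 + n 8 := ev2 c2 (by omega)
    have a4 : 2 ≤ n 0 + n 6 + n 11 + n 8 + n 2 + n 7 + n 10 + n 5 := ev2 c4 (by omega)
    clear c0 c1 c2 c3 c4
    omega
  · have hm : 1 ≤ n 9 := hj
    change 2 * 2 ≤ _
    have a0 : 2 ≤ n 1 + n 7 + n 12 + n 9 + n 3 + n 8 + n 11 + n 6 := ev2 c0 (by omega)
    have a1 : 2 ≤ n 2 + n 8 + n 13 + n 5 + n 4 + n 9 + n 12 + n 7 := ev2 c1 (by omega)
    have a2 : 2 ≤ n 3 + n 9 + n 14 + n 6 + n 0 + n 5 + n 13 + n 8 := ev2 c2 (by omega)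
    have a3 : 2 ≤ n 4 + n 5 + n 10 + n 7 + n 1 + n 6 + n 14 + n 9 := ev2 c3 (by omega)
    clear c0 c1 c2 c3 c4
    omega
  · have hm : 1 ≤ n 10 := hj
    change 2 * 1 ≤ _
    have a3 : 2 ≤ n 4 + n 5 + n 10 + n 7 + n 1 + n 6 + n 14 + n 9 := ev2 c3 (by omega)
    have a4 : 2 ≤ n 0 + n 6 + n 11 + n 8 + n 2 + n 7 + n 10 + n 5 := ev2 c4 (by omega)
    clear c0 c1 c2 c3 c4
    omega
  · have hm : 1 ≤ n 11 := hj
    change 2 * 1 ≤ _
    have a0 : 2 ≤ n 1 + n 7 + n 12 + n 9 + n 3 + n 8 + n 11 + n 6 := ev2 c0 (by omega)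
    have a4 : 2 ≤ n 0 + n 6 + n 11 + n 8 + n 2 + n 7 + n 10 + n 5 := ev2 c4 (by omega)
    clear c0 c1 c2 c3 c4
    omega
  · have hm : 1 ≤ n 12 := hj
    change 2 * 1 ≤ _
    have a0 : 2 ≤ n 1 + n 7 + n 12 + n 9 + n 3 + n 8 + n 11 + n 6 := ev2 c0 (by omega)
    have a1 : 2 ≤ n 2 + n 8 + n 13 + n 5 + n 4 + n 9 + n 12 + n 7 := ev2 c1 (by omega)
    clear c0 c1 c2 c3 c4
    omega
  · have hm : 1 ≤ n 13 := hj
    change 2 * 1 ≤ _
    have a1 : 2 ≤ n 2 + n 8 + n 13 + n 5 + n 4 + n 9 + n 12 + n 7 := ev2 c1 (by omega)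
    have a2 : 2 ≤ n 3 + n 9 + n 14 + n 6 + n 0 + n 5 + n 13 + n 8 := ev2 c2 (by omega)
    clear c0 c1 c2 c3 c4
    omega
  · have hm : 1 ≤ n 14 := hj
    change 2 * 1 ≤ _
    have a2 : 2 ≤ n 3 + n 9 + n 14 + n 6 + n 0 + n 5 + n 13 + n 8 := ev2 c2 (by omega)
    have a3 : 2 ≤ n 4 + n 5 + n 10 + n 7 + n 1 + n 6 + n 14 + n 9 := ev2 c3 (by omega)
    clear c0 c1 c2 c3 c4
    omega

/-! ### circuits -/

/-- indicator of an edge of the path `j` in `C` -/
def cc (C : Finset E) (j : Fin 15) (i : ℕ) : ℕ := if S.ed j i ∈ C then 1 else 0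

theorem cc_le (C : Finset E) (j : Fin 15) (i : ℕ) : cc S C j i ≤ 1 := by
  unfold cc
  split_ifs <;> omega

theorem deg_eq {C : Finset E} (hC : ∀ e ∈ C, ∃ j i, i ≤ S.len j ∧ e = S.ed j i) (v : V) :
    G.deg C v = ∑ j, ((∑ i ∈ range (S.len j + 1), if S.vx j i = v then cc S C j i else 0) +
      ∑ i ∈ range (S.len j + 1), if S.vx j (i + 1) = v then cc S C j i else 0) := by
  classical
  unfold MGraph.deg
  rw [Finset.card_filter, Finset.card_filter, ← Finset.sum_add_distrib,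
    ← Finset.univ_inter C, ← Finset.sum_ite_mem,
    sum_sub S (fun e => if e ∈ C then (if v ∈ G.ends e then 1 else 0) +
      (if G.ends e = s(v, v) then 1 else 0) else 0)]
  · apply Finset.sum_congr rfl
    intro j _
    rw [← Finset.sum_add_distrib]
    apply Finset.sum_congr rfl
    intro i hi
    have hi' : i ≤ S.len j := by
      rw [Finset.mem_range] at hi
      omega
    rw [S.ends j i hi']
    unfold cc
    simp only [Sym2.mem_iff, Sym2.eq_iff]
    by_cases h1 : S.vx j i = v <;> by_cases h2 : S.vx j (i + 1) = v <;>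
      by_cases h3 : S.ed j i ∈ C <;> simp [h1, h2, h3, eq_comm] <;> (try (intro h; simp_all)) <;>
      (try (constructor <;> (intro h; simp_all)))
  · intro e he
    by_cases h : e ∈ C
    · exact hC e h
    · simp only [if_neg h] at he
      exact absurd rfl he

theorem sum_fst {a : Fin 10} (f : ℕ → ℕ) (j : Fin 15) :
    (∑ i ∈ range (S.len j + 1), if S.vx j i = S.br a then f i else 0) =
      if pa j = a then f 0 else 0 := by
  rw [Finset.sum_eq_single 0]
  · rw [S.start]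
    by_cases h : pa j = a
    · rw [if_pos h, if_pos (by rw [h])]
    · rw [if_neg h, if_neg (fun h' => h (S.br_inj h'))]
  · intro i hi hi0
    rw [Finset.mem_range] at hi
    rw [if_neg]
    exact S.inner_ne j i a (by omega) (by omega)
  · intro h
    exact absurd (Finset.mem_range.2 (Nat.succ_pos _)) h

theorem sum_snd {a : Fin 10} (f : ℕ → ℕ) (j : Fin 15) :
    (∑ i ∈ range (S.len j + 1), if S.vx j (i + 1) = S.br a then f i else 0) =
      if pb j = a then f (S.len j) else 0 := by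
  rw [Finset.sum_eq_single (S.len j)]
  · rw [S.stop]
    by_cases h : pb j = a
    · rw [if_pos h, if_pos (by rw [h])]
    · rw [if_neg h, if_neg (fun h' => h (S.br_inj h'))]
  · intro i hi hi0
    rw [Finset.mem_range] at hi
    rw [if_neg]
    exact S.inner_ne j (i + 1) a (by omega) (by omega)
  · intro h
    exact absurd (Finset.mem_range.2 (Nat.lt_succ_self _)) h

theorem sum_fst' {j0 : Fin 15} {i0 : ℕ} (h1 : 1 ≤ i0) (h2 : i0 ≤ S.len j0)
    (f : Fin 15 → ℕ → ℕ) :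
    (∑ j, ∑ i ∈ range (S.len j + 1), if S.vx j i = S.vx j0 i0 then f j i else 0) = f j0 i0 := by
  rw [Finset.sum_eq_single j0]
  · rw [Finset.sum_eq_single i0]
    · rw [if_pos rfl]
    · intro i hi hi0
      rw [Finset.mem_range] at hi
      rw [if_neg]
      intro h
      rcases Nat.eq_zero_or_pos i with rfl | hpos
      · rw [S.start] at h
        exact S.inner_ne j0 i0 _ h1 h2 h.symm
      · exact hi0 (S.inner_inj j0 i j0 i0 hpos (by omega) h1 h2 h).2
    · intro h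
      exact absurd (Finset.mem_range.2 (Nat.lt_succ_of_le h2)) h
  · intro j _ hj
    apply Finset.sum_eq_zero
    intro i hi
    rw [Finset.mem_range] at hi
    rw [if_neg]
    intro h
    rcases Nat.eq_zero_or_pos i with rfl | hpos
    · rw [S.start] at h
      exact S.inner_ne j0 i0 _ h1 h2 h.symm
    · exact hj (S.inner_inj j i j0 i0 hpos (by omega) h1 h2 h).1
  · intro h
    exact absurd (Finset.mem_univ _) h

theorem sum_snd' {j0 : Fin 15} {i0 : ℕ} (h1 : 1 ≤ i0) (h2 : i0 ≤ S.len j0)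
    (f : Fin 15 → ℕ → ℕ) :
    (∑ j, ∑ i ∈ range (S.len j + 1), if S.vx j (i + 1) = S.vx j0 i0 then f j i else 0) =
      f j0 (i0 - 1) := by
  rw [Finset.sum_eq_single j0]
  · rw [Finset.sum_eq_single (i0 - 1)]
    · rw [if_pos]
      congr 1
      omega
    · intro i hi hi0
      rw [Finset.mem_range] at hi
      rw [if_neg]
      intro h
      rcases Nat.lt_or_ge i (S.len j0) with hlt | hge
      · have := (S.inner_inj j0 (i + 1) j0 i0 (by omega) (by omega) h1 h2 h).2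
        omega
      · have hi' : i = S.len j0 := by omega
        rw [hi', S.stop] at h
        exact S.inner_ne j0 i0 _ h1 h2 h.symm
    · intro h
      exact absurd (Finset.mem_range.2 (show i0 - 1 < S.len j0 + 1 by omega)) h
  · intro j _ hj
    apply Finset.sum_eq_zero
    intro i hi
    rw [Finset.mem_range] at hi
    rw [if_neg]
    intro h
    rcases Nat.lt_or_ge i (S.len j) with hlt | hge
    · exact hj (S.inner_inj j (i + 1) j0 i0 (by omega) (by omega) h1 h2 h).1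
    · have hi' : i = S.len j := by omega
      rw [hi', S.stop] at h
      exact S.inner_ne j0 i0 _ h1 h2 h.symm
  · intro h
    exact absurd (Finset.mem_univ _) h

/-- along a path the indicator is constant -/
theorem cc_const {C : Finset E} (hC : ∀ e ∈ C, ∃ j i, i ≤ S.len j ∧ e = S.ed j i)
    (hd : ∀ v, G.deg C v = 0 ∨ G.deg C v = 2) (j : Fin 15) (i : ℕ) (hi : i ≤ S.len j) :
    cc S C j i = cc S C j 0 := by
  induction i with
  | zero => rfl
  | succ i ih =>
    rw [← ih (by omega)]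
    have h := hd (S.vx j (i + 1))
    rw [deg_eq S hC, Finset.sum_add_distrib,
      sum_fst' S (f := fun j i => cc S C j i) (by omega) hi,
      sum_snd' S (f := fun j i => cc S C j i) (by omega) hi] at h
    have e : i + 1 - 1 = i := by omega
    rw [e] at h
    have h1 := cc_le S C j (i + 1)
    have h2 := cc_le S C j i
    omega

/-- the degree at a branch vertex -/
theorem deg_br {C : Finset E} (hC : ∀ e ∈ C, ∃ j i, i ≤ S.len j ∧ e = S.ed j i)
    (hd : ∀ v, G.deg C v = 0 ∨ G.deg C v = 2) (a : Fin 10) :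
    (∑ j, ((if pa j = a then cc S C j 0 else 0) + if pb j = a then cc S C j 0 else 0)) = 0 ∨
    (∑ j, ((if pa j = a then cc S C j 0 else 0) + if pb j = a then cc S C j 0 else 0)) = 2 := by
  have h := hd (S.br a)
  rw [deg_eq S hC] at h
  have e : ∀ j, ((∑ i ∈ range (S.len j + 1), if S.vx j i = S.br a then cc S C j i else 0) +
      ∑ i ∈ range (S.len j + 1), if S.vx j (i + 1) = S.br a then cc S C j i else 0) =
      (if pa j = a then cc S C j 0 else 0) + if pb j = a then cc S C j 0 else 0 := by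
    intro j
    rw [sum_fst S (f := fun i => cc S C j i), sum_snd S (f := fun i => cc S C j i),
      cc_const S hC hd j (S.len j) le_rfl]
  simp only [e] at h
  exact h

end

/-! ### finite part for circuits -/

/-- the local conditions at the ten vertices -/
theorem fin_loc (c : Fin 15 → ℕ) (h : ∀ a : Fin 10,
    (∑ j, ((if pa j = a then c j else 0) + if pb j = a then c j else 0)) = 0 ∨
    (∑ j, ((if pa j = a then c j else 0) + if pb j = a then c j else 0)) = 2)
    (hc : ∀ j, c j ≤ 1) :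
    c 5 ≤ c 4 + c 0 ∧ c 6 ≤ c 0 + c 1 ∧ c 7 ≤ c 1 + c 2 ∧ c 8 ≤ c 2 + c 3 ∧ c 9 ≤ c 3 + c 4 ∧
    c 5 ≤ c 10 + c 13 ∧ c 6 ≤ c 11 + c 14 ∧ c 7 ≤ c 12 + c 10 ∧ c 8 ≤ c 13 + c 11 ∧
    c 9 ≤ c 14 + c 12 := by
  refine ⟨?_, ?_, ?_, ?_, ?_, ?_, ?_, ?_, ?_, ?_⟩
  · have k := hc 5
    have h0 := h 0
    clear h hc
    simp [Fin.sum_univ_succ, pa, pb] at h0
    omega
  · have k := hc 6
    have h0 := h 1
    clear h hc
    simp [Fin.sum_univ_succ, pa, pb] at h0
    omega
  · have k := hc 7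
    have h0 := h 2
    clear h hc
    simp [Fin.sum_univ_succ, pa, pb] at h0
    omega
  · have k := hc 8
    have h0 := h 3
    clear h hc
    simp [Fin.sum_univ_succ, pa, pb] at h0
    omega
  · have k := hc 9
    have h0 := h 4
    clear h hc
    simp [Fin.sum_univ_succ, pa, pb] at h0
    omega
  · have k := hc 5
    have h0 := h 5
    clear h hc
    simp [Fin.sum_univ_succ, pa, pb] at h0
    omega
  · have k := hc 6
    have h0 := h 6
    clear h hc
    simp [Fin.sum_univ_succ, pa, pb] at h0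
    omega
  · have k := hc 7
    have h0 := h 7
    clear h hc
    simp [Fin.sum_univ_succ, pa, pb] at h0
    omega
  · have k := hc 8
    have h0 := h 8
    clear h hc
    simp [Fin.sum_univ_succ, pa, pb] at h0
    omega
  · have k := hc 9
    have h0 := h 9
    clear h hc
    simp [Fin.sum_univ_succ, pa, pb] at h0
    omega

theorem fin_alt (c : Fin 15 → ℕ) (hc : ∀ j, c j ≤ 1) (j0 : Fin 15) (hj : c j0 ≠ 0)
    (e0 : c 5 = c 4 + c 0) (e1 : c 6 = c 0 + c 1) (e2 : c 7 = c 1 + c 2) (e3 : c 8 = c 2 + c 3)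
    (e4 : c 9 = c 3 + c 4) (f0 : c 5 = c 10 + c 13) (f1 : c 6 = c 11 + c 14)
    (f2 : c 7 = c 12 + c 10) (f3 : c 8 = c 13 + c 11) (f4 : c 9 = c 14 + c 12) :
    c 5 + c 6 + c 7 + c 8 + c 9 = 4 := by
  have key : 1 ≤ c 5 + c 6 + c 7 + c 8 + c 9 := by
    by_contra hcon
    apply hj
    fin_cases j0 <;> simp <;> omega
  have k5 := hc 5
  have k6 := hc 6
  have k7 := hc 7
  have k8 := hc 8
  have k9 := hc 9
  have k10 : c 10 = 0 ∨ c 10 = 1 := by have := hc 10; omega
  have k11 : c 11 = 0 ∨ c 11 = 1 := by have := hc 11; omega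
  have k12 : c 12 = 0 ∨ c 12 = 1 := by have := hc 12; omega
  have k13 : c 13 = 0 ∨ c 13 = 1 := by have := hc 13; omega
  have k14 : c 14 = 0 ∨ c 14 = 1 := by have := hc 14; omega
  clear hc hj
  rcases k10 with k10 | k10 <;> rcases k11 with k11 | k11 <;> rcases k12 with k12 | k12 <;>
    rcases k13 with k13 | k13 <;> rcases k14 with k14 | k14 <;>
    rw [k10, k13] at f0 <;> rw [k11, k14] at f1 <;> rw [k12, k10] at f2 <;>
    rw [k13, k11] at f3 <;> rw [k14, k12] at f4 <;> clear k10 k11 k12 k13 k14 <;> omega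

theorem ms_sum_ite {α : Type} (F : Multiset α) (p : α → Prop) [DecidablePred p] :
    (F.map (fun C => if p C then 1 else 0)).sum = F.countP p := by
  induction F using Multiset.induction_on with
  | empty => simp
  | cons a F ih =>
    rw [Multiset.map_cons, Multiset.sum_cons, ih, Multiset.countP_cons]
    split_ifs <;> omega

theorem ms_eq {α : Type} (F : Multiset α) (f g : α → ℕ) (h : ∀ C ∈ F, f C ≤ g C)
    (he : (F.map f).sum = (F.map g).sum) : ∀ C ∈ F, f C = g C := by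
  induction F using Multiset.induction_on with
  | empty => intro C hC; simp at hC
  | cons a F ih =>
    have h1 : f a ≤ g a := h a (Multiset.mem_cons_self a F)
    have h2 : ∀ C ∈ F, f C ≤ g C := fun C hC => h C (Multiset.mem_cons_of_mem hC)
    have h3 : (F.map f).sum ≤ (F.map g).sum := Multiset.sum_map_le_sum_map _ _ h2
    rw [Multiset.map_cons, Multiset.sum_cons, Multiset.map_cons, Multiset.sum_cons] at he
    intro C hC
    rcases Multiset.mem_cons.1 hC with rfl | hC'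
    · omega
    · exact ih h2 (by omega) C hC'

section

variable {V E : Type} [Fintype V] [DecidableEq V] [Fintype E] [DecidableEq E]
  {G : MGraph V E} (S : PetersenSubdivision G)

/-- odd multiples of the Petersen weight are not faithfully covered -/
theorem no_cover {k : ℕ} (hk : Odd k) : ¬ HasCover G (wt S k) := by
  classical
  rintro ⟨F, hF, hw⟩
  have hsub : ∀ C ∈ F, ∀ e ∈ C, ∃ j i, i ≤ S.len j ∧ e = S.ed j i := by
    intro C hC e he
    apply wt_pos S (k := k)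
    rw [← hw e]
    intro h0
    rw [Multiset.countP_eq_zero] at h0
    exact h0 C hC he
  have hdeg : ∀ C ∈ F, ∀ v, G.deg C v = 0 ∨ G.deg C v = 2 := fun C hC => (hF C hC).2.1
  have loc : ∀ C ∈ F, _ := fun C hC => fin_loc (fun j => cc S C j 0)
    (deg_br S (hsub C hC) (hdeg C hC)) (fun j => cc_le S C j 0)
  have tot : ∀ j, (F.map (fun C => cc S C j 0)).sum = k * pw j := by
    intro j
    unfold cc
    rw [ms_sum_ite F (fun C => S.ed j 0 ∈ C), hw, wt_ed S k (Nat.zero_le _)]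
  have eq : ∀ x y z : Fin 15, pw x = 2 → pw y = 1 → pw z = 1 →
      (∀ C ∈ F, cc S C x 0 ≤ cc S C y 0 + cc S C z 0) →
      ∀ C ∈ F, cc S C x 0 = cc S C y 0 + cc S C z 0 := by
    intro x y z hx hy hz hle
    apply ms_eq F _ _ hle
    rw [Multiset.sum_map_add, tot x, tot y, tot z, hx, hy, hz]
    ring
  have e0 := eq 5 4 0 rfl rfl rfl (fun C hC => (loc C hC).1)
  have e1 := eq 6 0 1 rfl rfl rfl (fun C hC => (loc C hC).2.1)
  have e2 := eq 7 1 2 rfl rfl rfl (fun C hC => (loc C hC).2.2.1)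
  have e3 := eq 8 2 3 rfl rfl rfl (fun C hC => (loc C hC).2.2.2.1)
  have e4 := eq 9 3 4 rfl rfl rfl (fun C hC => (loc C hC).2.2.2.2.1)
  have f0 := eq 5 10 13 rfl rfl rfl (fun C hC => (loc C hC).2.2.2.2.2.1)
  have f1 := eq 6 11 14 rfl rfl rfl (fun C hC => (loc C hC).2.2.2.2.2.2.1)
  have f2 := eq 7 12 10 rfl rfl rfl (fun C hC => (loc C hC).2.2.2.2.2.2.2.1)
  have f3 := eq 8 13 11 rfl rfl rfl (fun C hC => (loc C hC).2.2.2.2.2.2.2.2.1)
  have f4 := eq 9 14 12 rfl rfl rfl (fun C hC => (loc C hC).2.2.2.2.2.2.2.2.2)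
  have four : ∀ C ∈ F, cc S C 5 0 + cc S C 6 0 + cc S C 7 0 + cc S C 8 0 + cc S C 9 0 = 4 := by
    intro C hC
    obtain ⟨e, he⟩ := (hF C hC).1
    obtain ⟨j, i, hi, rfl⟩ := hsub C hC e he
    have h1 : cc S C j i = 1 := by
      unfold cc
      rw [if_pos he]
    rw [cc_const S (hsub C hC) (hdeg C hC) j i hi] at h1
    exact fin_alt (fun j => cc S C j 0) (fun j => cc_le S C j 0) j
      (by rw [h1]; exact one_ne_zero) (e0 C hC) (e1 C hC) (e2 C hC) (e3 C hC) (e4 C hC)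
      (f0 C hC) (f1 C hC) (f2 C hC) (f3 C hC) (f4 C hC)
  have s1 : (F.map (fun C => cc S C 5 0 + cc S C 6 0 + cc S C 7 0 + cc S C 8 0 +
      cc S C 9 0)).sum = F.card * 4 := by
    rw [Multiset.map_congr rfl four, Multiset.map_const', Multiset.sum_replicate, smul_eq_mul]
  rw [Multiset.sum_map_add, Multiset.sum_map_add, Multiset.sum_map_add, Multiset.sum_map_add,
    tot, tot, tot, tot, tot] at s1
  have s2 : k * 2 + k * 2 + k * 2 + k * 2 + k * 2 = F.card * 4 := s1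
  obtain ⟨m, hm⟩ := hk
  omega

theorem dvd_wt (k : ℕ) (e : E) : k ∣ wt S k e := by
  classical
  unfold wt
  apply Finset.dvd_sum
  intro j _
  split_ifs
  · exact Dvd.intro _ rfl
  · exact dvd_zero k

theorem admissible (k : ℕ) : Admissible G (wt S k) := by
  classical
  intro X e he
  by_cases h0 : wt S k e = 0
  · rw [h0]
    exact Nat.zero_le _
  · obtain ⟨j, i, hi, rfl⟩ := wt_pos S h0
    have h1 := Finset.sum_erase_add (cut G X) (wt S k) he
    rw [sum_cut S k X, wt_ed S k hi] at h1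
    have h2 := (fin_cut (N S X) (bX S X) (N_parity S X)).2 j (N_pos S hi he)
    rw [wt_ed S k hi]
    have h3 : k * (2 * pw j) ≤ k * ∑ j, pw j * N S X j := Nat.mul_le_mul_left k h2
    have h4 : k * (2 * pw j) = k * pw j + k * pw j := by ring
    omega

theorem eulerian (k : ℕ) : Eulerian G (wt S k) := by
  intro X
  rw [sum_cut S k X, Nat.even_iff, Nat.mul_mod,
    (fin_cut (N S X) (bX S X) (N_parity S X)).1, mul_zero, Nat.zero_mod]

include S in
/-- For odd `k`, a graph with property `P_k` contains no subdivision of the Petersen graph. -/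
theorem main {k : ℕ} (hk : Odd k) (h : PropertyP k G) : False :=
  no_cover S hk (h (wt S k) (dvd_wt S k) (admissible S k) (eulerian S k))

end

end Run7.h329.FCC
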